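import Pool.Agent.K3h46.AS.Stm

/-!
# Project AS, brick LAU: the homomorphism from the coordinate ring over `F((1 / t))`
-/

set_option autoImplicit false

namespace Pool.Agent.K3h45.AS

open Pool.Agent.K3h46.AS

section

variable {F κ : Type} [Field F] [Field κ]

/-- A sum of Laurent series with different orders is not zero. -/
theorem sum_ne_zero {α : Type} [DecidableEq α] (s : Finset α) (g : α → LaurentSeries κ)
    (hne : ∃ i ∈ s, g i ≠ 0)
    (hd : ∀ i ∈ s, ∀ k ∈ s, g i ≠ 0 → g k ≠ 0 → (g i).order = (g k).order → i = k) :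
    ∑ i ∈ s, g i ≠ 0 := by
  classical
  obtain ⟨i1, hi1, h1⟩ := hne
  have hs : (s.filter (fun i => g i ≠ 0)).Nonempty := ⟨i1, Finset.mem_filter.2 ⟨hi1, h1⟩⟩
  obtain ⟨i0, hi0, hmin⟩ := Finset.exists_min_image _ (fun i => (g i).order) hs
  obtain ⟨hi0s, hi0n⟩ := Finset.mem_filter.1 hi0
  intro h0
  have h2 : (∑ i ∈ s, g i).coeff (g i0).order = (g i0).coeff (g i0).order := by
    rw [HahnSeries.coeff_sum]
    refine Finset.sum_eq_single i0 (fun k hk hk0 => ?_) (fun h => absurd hi0s h)
    by_cases hz : g k = 0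
    · rw [hz, HahnSeries.coeff_zero]
    · have h3 := hmin k (Finset.mem_filter.2 ⟨hk, hz⟩)
      have h4 : (g i0).order ≠ (g k).order := fun h => hk0 (hd i0 hi0s k hk hi0n hz h).symm
      exact HahnSeries.coeff_eq_zero_of_lt_order (lt_of_le_of_ne h3 h4)
  rw [h0, HahnSeries.coeff_zero] at h2
  exact hi0n (by_contra fun h => (HahnSeries.coeff_order_eq_zero.not.2 h) h2.symm)

/-- The coefficientwise map. -/
noncomputable def mapL (g : F →+* κ) : LaurentSeries F →+* LaurentSeries κ where
  toFun z := z.map g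
  map_one' := by
    ext n
    rw [HahnSeries.map_coeff]
    by_cases h : n = 0
    · subst h; simp
    · simp [HahnSeries.coeff_one, h]
  map_mul' a b := HahnSeries.map_mul (g : F →ₙ+* κ)
  map_zero' := by
    ext n
    rw [HahnSeries.map_coeff]
    simp
  map_add' a b := by
    ext n
    rw [HahnSeries.map_coeff, HahnSeries.coeff_add, HahnSeries.coeff_add, HahnSeries.map_coeff,
      HahnSeries.map_coeff, map_add]

theorem mapL_coeff (g : F →+* κ) (z : LaurentSeries F) (n : ℤ) :
    (mapL g z).coeff n = g (z.coeff n) := rfl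

/-- Nonzero series whose order is divisible by `p`. -/
def OrdIn (p : ℤ) (z : LaurentSeries κ) : Prop := z ≠ 0 ∧ p ∣ z.order

theorem OrdIn.mul {p : ℤ} {z w : LaurentSeries κ} (hz : OrdIn p z) (hw : OrdIn p w) :
    OrdIn p (z * w) :=
  ⟨mul_ne_zero hz.1 hw.1, by rw [HahnSeries.order_mul hz.1 hw.1]; exact dvd_add hz.2 hw.2⟩

theorem order_inv {z : LaurentSeries κ} (hz : z ≠ 0) : (z⁻¹).order = -z.order := by
  have h := HahnSeries.order_mul hz (inv_ne_zero hz)
  rw [mul_inv_cancel₀ hz, HahnSeries.order_one] at h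
  omega

theorem OrdIn.inv {p : ℤ} {z : LaurentSeries κ} (hz : OrdIn p z) : OrdIn p z⁻¹ :=
  ⟨inv_ne_zero hz.1, by rw [order_inv hz.1]; exact (dvd_neg).2 hz.2⟩

theorem OrdIn.one (p : ℤ) : OrdIn p (1 : LaurentSeries κ) :=
  ⟨one_ne_zero, by rw [HahnSeries.order_one]; exact dvd_zero _⟩

theorem OrdIn.pow {p : ℤ} {z : LaurentSeries κ} (hz : OrdIn p z) (n : ℕ) : OrdIn p (z ^ n) := by
  induction n with
  | zero => rw [pow_zero]; exact OrdIn.one p
  | succ n ih => rw [pow_succ]; exact ih.mul hz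

theorem OrdIn.zpow {p : ℤ} {z : LaurentSeries κ} (hz : OrdIn p z) (n : ℤ) : OrdIn p (z ^ n) := by
  cases n with
  | ofNat n => rw [Int.ofNat_eq_natCast, zpow_natCast]; exact hz.pow n
  | negSucc n => rw [zpow_negSucc]; exact (hz.pow _).inv

/-- Evaluation of power series at `τ`. -/
noncomputable def jP (τ : LaurentSeries κ) : PowerSeries κ →+* LaurentSeries κ where
  toFun f := PowerSeries.heval (R := κ) (Γ := ℤ) τ f
  map_one' := map_one (PowerSeries.heval (R := κ) (Γ := ℤ) τ)
  map_mul' a b := map_mul (PowerSeries.heval (R := κ) (Γ := ℤ) τ) a b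
  map_zero' := map_zero (PowerSeries.heval (R := κ) (Γ := ℤ) τ)
  map_add' a b := map_add (PowerSeries.heval (R := κ) (Γ := ℤ) τ) a b

theorem jP_X {τ : LaurentSeries κ} (hτ : 0 < τ.orderTop) : jP τ PowerSeries.X = τ :=
  PowerSeries.heval_X τ hτ

theorem jP_C (τ : LaurentSeries κ) (c : κ) : jP τ (PowerSeries.C c) = HahnSeries.C c := by
  have h := PowerSeries.heval_C (R := κ) (Γ := ℤ) τ c
  refine h.trans ?_
  ext n
  rw [HahnSeries.coeff_smul, HahnSeries.C_apply]
  by_cases hn : n = 0
  · subst hn; simp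
  · simp [HahnSeries.coeff_one, hn]

theorem jP_coeff_neg {τ : LaurentSeries κ} (hτ : 0 < τ.orderTop) (z : PowerSeries κ) (n : ℤ)
    (hn : n < 0) : (jP τ z).coeff n = 0 := by
  have h := PowerSeries.coeff_heval (R := κ) (Γ := ℤ) τ z n
  refine h.trans (finsum_eq_zero_of_forall_eq_zero fun k => ?_)
  simp only [HahnSeries.SummableFamily.coeff_apply, HahnSeries.SummableFamily.smulFamily_toFun,
    HahnSeries.coeff_smul, smul_eq_mul]
  refine mul_eq_zero_of_right _ ?_
  rw [HahnSeries.SummableFamily.powers_of_orderTop_pos hτ]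
  refine HahnSeries.coeff_eq_zero_of_lt_orderTop ?_
  refine lt_of_lt_of_le ?_ (HahnSeries.orderTop_nsmul_le_orderTop_pow (x := τ) (n := k))
  refine lt_of_lt_of_le (WithTop.coe_lt_coe.2 hn) ?_
  rw [WithTop.coe_zero]
  exact nsmul_nonneg hτ.le k

theorem jP_unit {τ : LaurentSeries κ} (hτ : 0 < τ.orderTop) (p : ℤ) (z : PowerSeries κ)
    (hz : PowerSeries.constantCoeff z ≠ 0) : OrdIn p (jP τ z) := by
  have h0 : (jP τ z).coeff 0 = PowerSeries.constantCoeff z := PowerSeries.coeff_heval_zero τ z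
  have hne : jP τ z ≠ 0 := fun h => hz (by rw [← h0, h, HahnSeries.coeff_zero])
  refine ⟨hne, ?_⟩
  have h1 : (jP τ z).order ≤ 0 := HahnSeries.order_le_of_coeff_ne_zero (by rw [h0]; exact hz)
  have h2 : ¬ (jP τ z).order < 0 := fun h =>
    (HahnSeries.coeff_order_eq_zero.not.2 hne) (jP_coeff_neg hτ z _ h)
  have h3 : (jP τ z).order = 0 := by omega
  rw [h3]
  exact dvd_zero _

/-- The substitution `T ↦ τ` in Laurent series. -/
theorem exists_jL {τ : LaurentSeries κ} (hτ : 0 < τ.orderTop) (p : ℤ) (hp : OrdIn p τ) :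
    ∃ j : LaurentSeries κ →+* LaurentSeries κ, (∀ c : κ, j (HahnSeries.C c) = HahnSeries.C c) ∧
      (j (HahnSeries.single (1 : ℤ) (1 : κ)) = τ) ∧ ∀ z, z ≠ 0 → OrdIn p (j z) := by
  have hu : ∀ y : Submonoid.powers (PowerSeries.X : PowerSeries κ), IsUnit (jP τ y) := by
    rintro ⟨y, n, rfl⟩
    rw [map_pow, jP_X hτ]
    exact (isUnit_iff_ne_zero.2 hp.1).pow n
  set j : LaurentSeries κ →+* LaurentSeries κ := IsLocalization.lift hu with hj
  have hjP : ∀ z : PowerSeries κ, j (z : LaurentSeries κ) = jP τ z := fun z =>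
    IsLocalization.lift_eq hu z
  have hjC : ∀ c : κ, j (HahnSeries.C c) = HahnSeries.C c := by
    intro c
    have h := hjP (PowerSeries.C c)
    rwa [PowerSeries.coe_C, jP_C] at h
  have hjX : j (HahnSeries.single (1 : ℤ) (1 : κ)) = τ := by
    have h := hjP PowerSeries.X
    rwa [PowerSeries.coe_X, jP_X hτ] at h
  refine ⟨j, hjC, hjX, fun z hz => ?_⟩
  have h1 := LaurentSeries.single_order_mul_powerSeriesPart z
  have h2 : j (HahnSeries.single z.order (1 : κ)) = τ ^ z.order := by
    rw [RatFunc.single_zpow, map_zpow₀, hjX]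
  rw [← h1, map_mul, h2, hjP]
  refine (hp.zpow _).mul (jP_unit hτ p _ ?_)
  rw [← PowerSeries.coeff_zero_eq_constantCoeff_apply, LaurentSeries.powerSeriesPart_coeff]
  rw [Nat.cast_zero, add_zero]
  exact HahnSeries.coeff_order_eq_zero.not.2 hz

/-- The homomorphism `F((T))[X] → κ((T))`, `X ↦ u⁻¹ T⁻¹`. -/
noncomputable def eHom (ι : Polynomial F →+* κ) :
    Polynomial (LaurentSeries F) →+* LaurentSeries κ :=
  Polynomial.eval₂RingHom (mapL (ι.comp Polynomial.C))
    (HahnSeries.single (-1 : ℤ) (ι Polynomial.X)⁻¹)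

theorem eHom_injective (ι : Polynomial F →+* κ) (hι : Function.Injective ι) :
    Function.Injective (eHom ι) := by
  rw [injective_iff_map_eq_zero]
  intro b hb
  have hu : ι Polynomial.X ≠ 0 := fun h => Polynomial.X_ne_zero (hι (h.trans (map_zero ι).symm))
  set u := ι Polynomial.X with hudef
  set D := b.natDegree with hD
  have hsum : ∀ m : ℤ, ∑ k ∈ Finset.range (D + 1),
      ι (Polynomial.C ((b.coeff k).coeff (m + k))) * (u⁻¹) ^ k = 0 := by
    intro m
    have h1 : (eHom ι b).coeff m = ∑ k ∈ Finset.range (D + 1),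
        ι (Polynomial.C ((b.coeff k).coeff (m + k))) * (u⁻¹) ^ k := by
      unfold eHom
      rw [Polynomial.coe_eval₂RingHom, Polynomial.eval₂_eq_sum_range, HahnSeries.coeff_sum]
      refine Finset.sum_congr rfl fun k _ => ?_
      rw [HahnSeries.single_pow]
      have h2 : m = (m + k) + (k • (-1 : ℤ)) := by
        simp
      conv_lhs => rw [h2]
      rw [HahnSeries.coeff_mul_single_add, mapL_coeff]
      rfl
    rw [← h1, hb, HahnSeries.coeff_zero]
  refine Polynomial.ext fun i => ?_
  rw [Polynomial.coeff_zero]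
  rcases Nat.lt_or_ge D i with hi | hi
  · exact Polynomial.coeff_eq_zero_of_natDegree_lt hi
  · ext n
    rw [HahnSeries.coeff_zero]
    have h3 := hsum (n - i)
    have h4 : ι (∑ k ∈ Finset.range (D + 1),
        Polynomial.C ((b.coeff k).coeff (n - i + k)) * Polynomial.X ^ (D - k)) = 0 := by
      rw [map_sum]
      have h5 : ∀ k ∈ Finset.range (D + 1),
          ι (Polynomial.C ((b.coeff k).coeff (n - i + k)) * Polynomial.X ^ (D - k)) =
          (ι (Polynomial.C ((b.coeff k).coeff (n - i + k))) * (u⁻¹) ^ k) * u ^ D := by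
        intro k hk
        have hk' : k ≤ D := by have := Finset.mem_range.1 hk; omega
        rw [map_mul, map_pow, ← hudef, mul_assoc]
        congr 1
        have h6 : u ^ D = u ^ k * u ^ (D - k) := by rw [← pow_add]; congr 1; omega
        rw [h6, ← mul_assoc, ← mul_pow, inv_mul_cancel₀ hu, one_pow, one_mul]
      rw [Finset.sum_congr rfl h5, ← Finset.sum_mul, h3, zero_mul]
    have h7 := hι (h4.trans (map_zero ι).symm)
    have h8 := congrArg (fun q : Polynomial F => q.coeff (D - i)) h7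
    simp only [Polynomial.finsetSum_coeff, Polynomial.coeff_C_mul, Polynomial.coeff_X_pow,
      Polynomial.coeff_zero] at h8
    rw [Finset.sum_eq_single i] at h8
    · rw [if_pos rfl, mul_one, sub_add_cancel] at h8
      exact h8
    · intro k hk hki
      have hk' : k ≤ D := by have := Finset.mem_range.1 hk; omega
      rw [if_neg (by omega), mul_zero]
    · intro h
      exact absurd (Finset.mem_range.2 (by omega)) h

end

theorem t_LAU : S_LAU := by
  intro p hp d F _ _ f hd hdp hlead κ _ _ ι hι x hx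
  have hp0 : 0 < p := hp.out.pos
  have hdlt : d < p := by
    have := Nat.le_of_dvd (by have := hp.out.two_le; omega) hdp
    omega
  have hu : ι Polynomial.X ≠ 0 := fun h => Polynomial.X_ne_zero (hι (h.trans (map_zero ι).symm))
  have hl : ι (lead d f) ≠ 0 := fun h => hlead (hι (h.trans (map_zero ι).symm))
  set u := ι Polynomial.X with hudef
  have hxc : x.coeff (-(p : ℤ)) ≠ 0 := by rw [hx.top]; exact pow_ne_zero _ hl
  have hx0 : x ≠ 0 := fun h => hxc (by rw [h, HahnSeries.coeff_zero])
  have hxo : x.order = -(p : ℤ) := by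
    have h1 := HahnSeries.order_le_of_coeff_ne_zero hxc
    have h2 : ¬ x.order < -(p : ℤ) := fun h =>
      (HahnSeries.coeff_order_eq_zero.not.2 hx0) (hx.low _ h)
    omega
  have hCu : (HahnSeries.C u : LaurentSeries κ) ≠ 0 := HahnSeries.C_ne_zero hu
  have hux : (HahnSeries.C u : LaurentSeries κ) * x ≠ 0 := mul_ne_zero hCu hx0
  have huxo : ((HahnSeries.C u : LaurentSeries κ) * x).order = -(p : ℤ) := by
    rw [HahnSeries.order_mul hCu hx0, HahnSeries.order_C, hxo, zero_add]
  set τ : LaurentSeries κ := ((HahnSeries.C u : LaurentSeries κ) * x)⁻¹ with hτdef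
  have hτ0 : τ ≠ 0 := inv_ne_zero hux
  have hτo : τ.order = (p : ℤ) := by rw [hτdef, order_inv hux, huxo, neg_neg]
  have hτ : 0 < τ.orderTop := by
    rw [HahnSeries.zero_lt_orderTop_iff hτ0, hτo]
    exact_mod_cast hp0
  obtain ⟨j, hjC, hjX, hj⟩ := exists_jL hτ (p : ℤ) ⟨hτ0, by rw [hτo]⟩
  set Θ : Polynomial (LaurentSeries F) →+* LaurentSeries κ := j.comp (eHom ι) with hΘ
  have hsingle : ∀ c : κ, (HahnSeries.single (-1 : ℤ) c : LaurentSeries κ) =
      HahnSeries.C c * (HahnSeries.single (1 : ℤ) (1 : κ))⁻¹ := by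
    intro c
    rw [HahnSeries.inv_single, inv_one, HahnSeries.C_apply, HahnSeries.single_mul_single,
      zero_add, mul_one]
  have hjs : ∀ c : κ, j (HahnSeries.single (-1 : ℤ) c) = HahnSeries.C c * τ⁻¹ := by
    intro c
    rw [hsingle, map_mul, map_inv₀, hjC, hjX]
  have hτinv : τ⁻¹ = (HahnSeries.C u : LaurentSeries κ) * x := by rw [hτdef, inv_inv]
  have hΘX : Θ Polynomial.X = x := by
    rw [hΘ, RingHom.comp_apply]
    unfold eHom
    rw [Polynomial.coe_eval₂RingHom, Polynomial.eval₂_X, hjs, hτinv, ← mul_assoc, ← map_mul,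
      ← hudef, inv_mul_cancel₀ hu, map_one, one_mul]
  have hΘL : ∀ z : LaurentSeries F, Θ (Polynomial.C z) = j (mapL (ι.comp Polynomial.C) z) := by
    intro z
    rw [hΘ, RingHom.comp_apply]
    unfold eHom
    rw [Polynomial.coe_eval₂RingHom, Polynomial.eval₂_C]
  have hms : ∀ (n : ℤ) (c : F), mapL (ι.comp Polynomial.C) (HahnSeries.single n c) =
      (HahnSeries.single n (ι (Polynomial.C c)) : LaurentSeries κ) := by
    intro n c
    ext m
    rw [mapL_coeff]
    by_cases h : m = n
    · subst h; simp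
    · simp [HahnSeries.coeff_single_of_ne h]
  have hΘa : ∀ a : MvPolynomial (Fin 2) F, Θ (toInf a) = ev ι x a := by
    intro a
    have h : Θ.comp toInf = ev ι x := by
      refine MvPolynomial.ringHom_ext (fun c => ?_) (fun i => ?_)
      · rw [RingHom.comp_apply]
        unfold toInf ev
        rw [MvPolynomial.coe_eval₂Hom, MvPolynomial.eval₂_C, MvPolynomial.coe_eval₂Hom,
          MvPolynomial.eval₂_C]
        change Θ (Polynomial.C (HahnSeries.C c)) = HahnSeries.C (ι (Polynomial.C c))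
        rw [hΘL, HahnSeries.C_apply, hms, ← HahnSeries.C_apply, hjC]
      · rw [RingHom.comp_apply]
        unfold toInf ev
        rw [MvPolynomial.coe_eval₂Hom, MvPolynomial.eval₂_X, MvPolynomial.coe_eval₂Hom,
          MvPolynomial.eval₂_X]
        fin_cases i
        · exact hΘX
        · change Θ (Polynomial.C (HahnSeries.single (-1 : ℤ) (1 : F))) = HahnSeries.C u * x
          rw [hΘL, hms, map_one, map_one, hjs, hτinv, map_one, one_mul]
    exact congrArg (fun q => q a) h
  have hΘinj : Function.Injective Θ := j.injective.comp (eHom_injective ι hι)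
  have hΘord : ∀ a, a ≠ 0 → OrdIn (p : ℤ) (Θ a) := by
    intro a ha
    rw [hΘ, RingHom.comp_apply]
    exact hj _ (fun h => ha (eHom_injective ι hι (h.trans (map_zero _).symm)))
  set w : LaurentSeries κ := HahnSeries.single (-(d : ℤ)) (ι (lead d f) ^ p) with hw
  have hw0 : w ≠ 0 := by
    rw [hw]
    exact HahnSeries.single_ne_zero (pow_ne_zero _ hl)
  have hwo : w.order = -(d : ℤ) := by
    rw [hw]
    exact HahnSeries.order_single (pow_ne_zero _ hl)
  have heq : w ^ p - w = Θ (toInf f) := by rw [hΘa, hx.eq]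
  have hmonic : (eqn p (toInf f)).Monic := by
    unfold eqn
    rw [sub_sub]
    refine Polynomial.monic_X_pow_sub ?_
    refine lt_of_le_of_lt (Polynomial.degree_add_le _ _) (max_lt ?_ ?_)
    · rw [Polynomial.degree_X]
      exact_mod_cast (by have := hp.out.two_le; omega : 1 < p)
    · exact lt_of_le_of_lt Polynomial.degree_C_le (by exact_mod_cast hp0)
  have hdeg : (eqn p (toInf f)).natDegree = p := by
    unfold eqn
    rw [sub_sub]
    refine Polynomial.natDegree_sub_eq_left_of_natDegree_lt ?_ |>.trans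
      (Polynomial.natDegree_X_pow p)
    rw [Polynomial.natDegree_X_pow]
    refine lt_of_le_of_lt (Polynomial.natDegree_add_le _ _) ?_
    rw [Polynomial.natDegree_X, Polynomial.natDegree_C]
    have := hp.out.two_le
    simp; omega
  refine ⟨AdjoinRoot.lift Θ w (eval_eqn p (toInf f) Θ w heq), ?_, fun a => by
    rw [AdjoinRoot.lift_of, hΘa]⟩
  rw [injective_iff_map_eq_zero]
  intro y hy
  obtain ⟨q0, rfl⟩ := AdjoinRoot.mk_surjective y
  set q := q0 %ₘ (eqn p (toInf f)) with hq
  have hmk : AdjoinRoot.mk (eqn p (toInf f)) q0 = AdjoinRoot.mk (eqn p (toInf f)) q := by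
    rw [AdjoinRoot.mk_eq_mk]
    refine ⟨q0 /ₘ (eqn p (toInf f)), ?_⟩
    have := Polynomial.modByMonic_add_div q0 (eqn p (toInf f))
    rw [← hq] at this
    linear_combination (-1 : Polynomial (Polynomial (LaurentSeries F))) * this
  have hqd : q.natDegree < p := by
    have h := Polynomial.natDegree_modByMonic_lt q0 hmonic (by
      intro h
      have h2 := congrArg Polynomial.natDegree h
      rw [hdeg, Polynomial.natDegree_one] at h2
      omega)
    rwa [hdeg] at h
  rw [hmk] at hy ⊢
  rw [AdjoinRoot.lift_mk, Polynomial.eval₂_eq_sum_range' Θ hqd w] at hy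
  by_cases hq0 : q = 0
  · rw [hq0, map_zero]
  exfalso
  refine sum_ne_zero (Finset.range p) (fun i => Θ (q.coeff i) * w ^ i) ?_ ?_ hy
  · refine ⟨q.natDegree, Finset.mem_range.2 hqd, mul_ne_zero ?_ (pow_ne_zero _ hw0)⟩
    exact (hΘord _ (by
      rw [Polynomial.coeff_natDegree]; exact Polynomial.leadingCoeff_ne_zero.2 hq0)).1
  · intro i hi k hk hi0 hk0 hik
    have hi' := Finset.mem_range.1 hi
    have hk' := Finset.mem_range.1 hk
    have ho : ∀ i : ℕ, Θ (q.coeff i) * w ^ i ≠ 0 → ∃ a : ℤ,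
        (Θ (q.coeff i) * w ^ i).order = p * a - d * i := by
      intro i hne
      have hqi : q.coeff i ≠ 0 := fun h => hne (by rw [h, map_zero, zero_mul])
      obtain ⟨a, ha⟩ := (hΘord _ hqi).2
      refine ⟨a, ?_⟩
      rw [HahnSeries.order_mul (hΘord _ hqi).1 (pow_ne_zero _ hw0), HahnSeries.order_pow, hwo, ha]
      simp
      ring
    obtain ⟨a, ha⟩ := ho i hi0
    obtain ⟨b, hb⟩ := ho k hk0
    have hik' : (Θ (q.coeff i) * w ^ i).order = (Θ (q.coeff k) * w ^ k).order := hik
    rw [ha, hb] at hik'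
    have hdvd : (p : ℤ) ∣ (d : ℤ) * ((i : ℤ) - k) := ⟨a - b, by linear_combination (-1) * hik'⟩
    have hpr : Prime (p : ℤ) := Nat.prime_iff_prime_int.1 hp.out
    rcases hpr.dvd_or_dvd hdvd with h | h
    · have := Int.le_of_dvd (by exact_mod_cast hd) h
      omega
    · have := Int.eq_zero_of_abs_lt_dvd h (by rw [abs_lt]; constructor <;> omega)
      omega

end Pool.Agent.K3h45.AS
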